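import Pool.Agent.H105.TP.NumF

/-!
# The pole relation at the primes 1 modulo 4 and sets of Brauer-Manin type
-/

set_option autoImplicit false

namespace Pool.Agent.Results.MP_a59382_lc.AlgebraicQuantifiers

open Pool.Agent.TH766.HP Pool.Agent.H105.TP

/-- **The slices of the pole relation at the primes `1` modulo `4` are not given by local conditions
and obstructions of Brauer-Manin type, even with algebraic quantifiers.**

For a number field `K` and a set `Q` of primes `PoleRel K Q` is the relation between `a, b ∈ K`:
`b` has a pole at every place above a prime of `Q` at which `a` has a pole; for `Q` the primes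
`p = 1 mod 4` it is the relation `R_K` of the problem. A set `E` of rational numbers is negligible
(`Negl E`) if every residue class of rational numbers contains a residue class with only finitely
many elements of `E`; thin sets are negligible. The Boolean algebra `LineAlg Q` of sets of rational
numbers and the larger collection `PosAlg Q`, which is closed under finite unions and intersections
only, are defined in `Pool/Agent/H105/TP/LineAlg.lean`.

Let `Q` be a rich set of primes, for example the primes `p = 1 mod 4`, and let `b ∈ K` be without
pole above `Q`, for example an integer. Every set `A` in `PosAlg Q` such that all `a ∈ A` satisfy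
`PoleRel K Q a b` misses all integers of some residue class inside any given residue class. In
particular the set of all rational numbers `a` with `PoleRel K Q a b`, which contains all integers,
is not in `PosAlg Q`. -/
theorem result :
    (∀ (K : Type) [Field K] [NumberField K] (b : K), NoPole K {p | p % 4 = 1} b →
      ¬ PosAlg {p | p % 4 = 1} {a : ℚ | PoleRel K {p | p % 4 = 1} (a : K) b}) ∧
    (∀ (K : Type) [Field K] [NumberField K] (Q : Set ℕ), Rich Q → ∀ b : K, NoPole K Q b →
      ∀ A : Set ℚ, PosAlg Q A → (∀ a ∈ A, PoleRel K Q (a : K) b) → ∀ m k : ℤ, 0 < k →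
        ∃ m' k' : ℤ, 0 < k' ∧ k ∣ k' ∧ k ∣ m' - m ∧ ∀ n : ℤ, k' ∣ n - m' → (n : ℚ) ∉ A) ∧
    Rich {p | p % 4 = 1} ∧ (∀ E : Set ℚ, Thin E → Negl E) ∧
    ∀ (Q : Set ℕ) (n r : ℕ) (F : Fin r → MvPolynomial (Fin n) (Polynomial ℚ)), Homog F →
      Negl {x : ℚ | LocSol F x ∧ ¬ HasPoint ℚ F x} → LineAlg Q {x | HasPoint ℚ F x} :=
  ⟨fun _ _ _ b hb => PosAlg.poleRel_ne four b hb,
    fun _ _ _ _ hQ b hb _ hA hAP m k hk => hA.poleRel hQ b hb hAP m k hk,
    four, fun _ h => h.negl, fun _ _ _ F hF h => LineAlg.hasse F hF h⟩

end Pool.Agent.Results.MP_a59382_lc.AlgebraicQuantifiers
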