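import Pool.Agent.Q168.RC.Ex
import Pool.Agent.Results.MP_a59382_lc.CubicEquations

/-!
# The pole relation and varieties with rational curves of unbounded degree

Let `K` be a number field and let `Q` be a rich set of rational primes, for example the primes
`p = 1 mod 4`. *Good sets* (`Good`) are sets of points with coordinates in `K`: the least class
which contains
* the sets `S` which contain rational curves over `K` of unbounded degree (`Curved`): for every `D`
  there is a rational curve with values in `S` such that each polynomial of degree at most `D` which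
  vanishes on the curve vanishes on `S`;
* affine spaces and smooth quartic double covers `w² = F(1, z₁, …, z_n)`, `w ≠ 0`, `n ≥ 2`;
and is closed under finite unions, finite products and dominated images.

Elliptic surfaces `D(t) y² = x³ + A(t) x + B(t)` with a point over `K(t)` whose abscissa has degree
larger than `5/3 max(deg A, deg B)` are good, for example all Kummer surfaces `f(t) y² = f(x)` with
a separable cubic polynomial `f = x³ + c x + d`; these surfaces are not uniruled in general.

We consider finite unions `U` of relations between `a, b ∈ K` of the following three kinds: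
* `∃ z, f(a, b, z) = 0`, where `f` has degree at most three in `(a, z)` (see `CubicEquations`);
* `a` is a value of a rational function `p/q` at a point of a good set; here the good set, `p` and
  `q` depend in an arbitrary way on `b`;
* `a` is in a thin set, which depends in an arbitrary way on `b`.

If for one `b` without pole above `Q`, for which all the sets in question are good (thin), all `a`
with `U(a, b)` satisfy the pole relation (that is, have no pole above `Q`), then each relation of
the second kind holds only for finitely many `a`, the set of all `a` with `U(a, b)` is thin and it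
misses infinitely many rational integers. In particular `U` is not the relation `R_K` of the
problem.

The proof for the second kind. The ring of the elements without pole above `Q` is flat: a rational
function in one variable over `K` all of whose values are in the ring is constant. So a rational
function `p/q` on `S` with such values is constant on each rational curve over `K` in `S`; if its
value on a curve of large degree is `c`, then `p - c q`, a polynomial of bounded degree, vanishes
on the curve, hence on `S`.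
-/

set_option autoImplicit false

namespace Pool.Agent.Results.MP_a59382_lc.RationalCurves

open MvPolynomial Pool.Agent.TH766.HP Pool.Agent.TH783.CE Pool.Agent.Q168.RC
open Pool.Agent.Results.MP_a59382_lc.CubicEquations (PoleRel)

/-- The values of `p / q` at the points `x ∈ S` with `q(x) ≠ 0`. -/
def values {K : Type} [Field K] {σ : Type} (S : Set (σ → K)) (p q : MvPolynomial σ K) : Set K :=
  {t | ∃ x ∈ S, eval x q ≠ 0 ∧ t = eval x p / eval x q}

theorem result :
    -- for every number field the relation `R_K` is not a finite union of such relations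
    (∀ (K : Type) [Field K] [NumberField K]
      (k : ℕ) (n : Fin k → ℕ) (f : ∀ i, MvPolynomial (Fin 2 ⊕ Fin (n i)) K),
      (∀ i, ∀ m ∈ (f i).support, m (Sum.inl 0) + ∑ j, m (Sum.inr j) ≤ 3) →
      ∀ (l : ℕ) (σ : Fin l → Type) (S : ∀ i, K → Set (σ i → K))
        (p q : ∀ i, K → MvPolynomial (σ i) K) (T : K → Set K),
      (∃ b ∈ NoPole K {p | p % 4 = 1}, (∀ i, Good K (S i b)) ∧ Thin (T b)) →
      ¬ ∀ a b : K, ((∃ i, ∃ z : Fin (n i) → K, eval (Sum.elim ![a, b] z) (f i) = 0) ∨
          (∃ i, a ∈ values (S i b) (p i b) (q i b)) ∨ a ∈ T b) ↔ PoleRel K {p | p % 4 = 1} a b) ∧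
    -- the general form, for every rich set of primes
    (∀ (K : Type) [Field K] [NumberField K] (Q : Set ℕ), Rich Q →
      ∀ (k : ℕ) (n : Fin k → ℕ) (f : ∀ i, MvPolynomial (Fin 2 ⊕ Fin (n i)) K),
      (∀ i, ∀ m ∈ (f i).support, m (Sum.inl 0) + ∑ j, m (Sum.inr j) ≤ 3) →
      ∀ (l : ℕ) (σ : Fin l → Type) (S : ∀ i, K → Set (σ i → K))
        (p q : ∀ i, K → MvPolynomial (σ i) K) (T : K → Set K),
      ∀ b ∈ NoPole K Q, (∀ i, Good K (S i b)) → Thin (T b) →
      (∀ a : K, ((∃ i, ∃ z : Fin (n i) → K, eval (Sum.elim ![a, b] z) (f i) = 0) ∨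
          (∃ i, a ∈ values (S i b) (p i b) (q i b)) ∨ a ∈ T b) → PoleRel K Q a b) →
      (∀ i, (values (S i b) (p i b) (q i b)).Finite) ∧
      Thin {a : K | (∃ i, ∃ z : Fin (n i) → K, eval (Sum.elim ![a, b] z) (f i) = 0) ∨
          (∃ i, a ∈ values (S i b) (p i b) (q i b)) ∨ a ∈ T b} ∧
      ∀ B : ℤ, ∃ m : ℤ, B < m ∧ PoleRel K Q (m : K) b ∧
        ¬ ((∃ i, ∃ z : Fin (n i) → K, eval (Sum.elim ![(m : K), b] z) (f i) = 0) ∨
          (∃ i, (m : K) ∈ values (S i b) (p i b) (q i b)) ∨ (m : K) ∈ T b)) ∧
    -- elliptic surfaces with a point of large degree over `K(t)`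
    (∀ (K : Type) [Field K] [CharZero K] (D A B u v s r : Polynomial K), D ≠ 0 →
      4 * A ^ 3 + 27 * B ^ 2 ≠ 0 → Pnt D A B u v s r →
      5 * max A.natDegree B.natDegree < 3 * max u.natDegree v.natDegree →
      Good K (EllSurf D A B)) ∧
    -- Kummer surfaces
    (∀ (K : Type) [Field K] [CharZero K] (c d : K), 4 * c ^ 3 + 27 * d ^ 2 ≠ 0 →
      Good K {z : Fin 3 → K | z 0 ^ 3 + c * z 0 + d ≠ 0 ∧
        (z 0 ^ 3 + c * z 0 + d) * z 2 ^ 2 = z 1 ^ 3 + c * z 1 + d}) := by
  have main : ∀ (K : Type) [Field K] [NumberField K] (Q : Set ℕ), Rich Q →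
      ∀ (k : ℕ) (n : Fin k → ℕ) (f : ∀ i, MvPolynomial (Fin 2 ⊕ Fin (n i)) K),
      (∀ i, ∀ m ∈ (f i).support, m (Sum.inl 0) + ∑ j, m (Sum.inr j) ≤ 3) →
      ∀ (l : ℕ) (σ : Fin l → Type) (S : ∀ i, K → Set (σ i → K))
        (p q : ∀ i, K → MvPolynomial (σ i) K) (T : K → Set K),
      ∀ b ∈ NoPole K Q, (∀ i, Good K (S i b)) → Thin (T b) →
      (∀ a : K, ((∃ i, ∃ z : Fin (n i) → K, eval (Sum.elim ![a, b] z) (f i) = 0) ∨
          (∃ i, a ∈ values (S i b) (p i b) (q i b)) ∨ a ∈ T b) → PoleRel K Q a b) →
      (∀ i, (values (S i b) (p i b) (q i b)).Finite) ∧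
      Thin {a : K | (∃ i, ∃ z : Fin (n i) → K, eval (Sum.elim ![a, b] z) (f i) = 0) ∨
          (∃ i, a ∈ values (S i b) (p i b) (q i b)) ∨ a ∈ T b} ∧
      ∀ B : ℤ, ∃ m : ℤ, B < m ∧ PoleRel K Q (m : K) b ∧
        ¬ ((∃ i, ∃ z : Fin (n i) → K, eval (Sum.elim ![(m : K), b] z) (f i) = 0) ∨
          (∃ i, (m : K) ∈ values (S i b) (p i b) (q i b)) ∨ (m : K) ∈ T b) := by
    intro K _ _ Q hQ k n f hf l σ S p q T b hb hS hT h
    obtain ⟨φ⟩ : Nonempty (K →+* ℂ) := inferInstance
    have hno : ∀ a : K, PoleRel K Q a b → a ∈ NoPole K Q := by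
      intro a ha v hv
      by_contra hcon
      exact absurd (ha v hv (not_le.1 hcon)) (not_lt.2 (hb v hv))
    have hfin : ∀ i, (values (S i b) (p i b) (q i b)).Finite := fun i =>
      (hS i).values_finite (flat_noPole (K := K) hQ) φ _ _
        fun t ht => hno t (h t (Or.inr (Or.inl ⟨i, ht⟩)))
    have hthin : Thin {a : K | (∃ i, ∃ z : Fin (n i) → K,
        eval (Sum.elim ![a, b] z) (f i) = 0) ∨
        (∃ i, a ∈ values (S i b) (p i b) (q i b)) ∨ a ∈ T b} := by
      have h1 := thin_union (flat_noPole (K := K) hQ) b f hf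
        (fun a ha => hno a (h a (Or.inl ha)))
      have h2 : Thin (⋃ i, values (S i b) (p i b) (q i b)) :=
        Thin.of_finite (Set.finite_iUnion hfin)
      refine (h1.union (h2.union hT)).mono ?_
      rintro a (ha | ⟨i, ha⟩ | ha)
      · exact Or.inl ha
      · exact Or.inr (Or.inl (Set.mem_iUnion.2 ⟨i, ha⟩))
      · exact Or.inr (Or.inr ha)
    refine ⟨hfin, hthin, fun B => ?_⟩
    obtain ⟨m, hm, hm'⟩ := hthin.exists_int B
    refine ⟨m, hm, fun v _ hv' => ?_, hm'⟩
    exfalso
    have h1 : v.valuation K ((m : NumberField.RingOfIntegers K) : K) ≤ 1 :=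
      v.valuation_le_one (K := K) (m : NumberField.RingOfIntegers K)
    have h2 : ((m : NumberField.RingOfIntegers K) : K) = (m : K) := by simp
    rw [h2] at h1
    exact absurd hv' (not_lt.2 h1)
  refine ⟨?_, main, good_ell, good_kummer⟩
  intro K _ _ k n f hf l σ S p q T hb hiff
  obtain ⟨b, hb, hS, hT⟩ := hb
  obtain ⟨-, -, h3⟩ := main K {p | p % 4 = 1} four k n f hf l σ S p q T b hb hS hT
    (fun a ha => (hiff a b).1 ha)
  obtain ⟨m, -, hm, hm'⟩ := h3 0
  exact hm' ((hiff _ _).2 hm)

end Pool.Agent.Results.MP_a59382_lc.RationalCurves
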