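import Pool.Agent.Q212.PR5

/-!
# MP_a59382_lc: an approximate existential definition of the pole relation can be repaired

`K ⊆ L` are number fields, `Q` is a set of prime numbers, `R_b` is the ring of the elements of
`L` all of whose poles above `Q` are poles of `b`.
-/

set_option autoImplicit false

namespace Pool.Agent.Results.MP_a59382_lc.Robustness

open NumberField IsDedekindDomain MvPolynomial

/-- `b` has a pole at every place above a prime number of `Q` at which `a` has a pole. -/
def PoleRel (K : Type) [Field K] [NumberField K] (Q : Set ℕ) (a b : K) : Prop :=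
  ∀ v : HeightOneSpectrum (𝓞 K), (∃ p : ℕ, p.Prime ∧ p ∈ Q ∧ ((p : 𝓞 K) ∈ v.asIdeal)) →
    1 < v.valuation K a → 1 < v.valuation K b

/-- The fibre at `b` of the existentially defined relation `∃ z, g (x, b, z) = 0`. -/
def Fib {L : Type} [Field L] {n : ℕ} (g : MvPolynomial (Fin 2 ⊕ Fin n) L) (b : L) : Set L :=
  {x | ∃ z : Fin n → L, eval (Sum.elim ![x, b] z) g = 0}

/-- The relation is existentially definable (in the form of the frozen statement). -/
def ExDef {K : Type} [Field K] (R : K → K → Prop) : Prop :=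
  ∃ (n : ℕ) (f : MvPolynomial (Fin 2 ⊕ Fin n) K), ∀ a b : K,
    (∃ z : Fin n → K, eval (Sum.elim ![a, b] z) f = 0) ↔ R a b

/-- The sums of `N` differences of elements of `A`. -/
def DiffSum {L : Type} [Field L] (A : Set L) (N : ℕ) : Set L :=
  {x | ∃ y z : Fin N → L, (∀ j, y j ∈ A) ∧ (∀ j, z j ∈ A) ∧ x = ∑ j, (y j - z j)}

/-- A finitely additive probability on the subsets of `G`, invariant under translation by the
elements of `G`. -/
structure IsMean {L : Type} [Field L] (G : Set L) (μ : Set L → ℝ) : Prop where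
  nonneg : ∀ S ⊆ G, 0 ≤ μ S
  add : ∀ S T, S ⊆ G → T ⊆ G → Disjoint S T → μ (S ∪ T) = μ S + μ T
  total : μ G = 1
  inv : ∀ c ∈ G, ∀ S ⊆ G, μ ((fun x => c + x) '' S) = μ S

/-- Let `A_b` be the fibres of an existential formula over `L`. Suppose that, for all but
finitely many `b ∈ K`, `m A_b` lies in `m c_1 + R_b, …, m c_k + R_b`, and that either among any
`k + 1` elements of `R_b` two differ by a sum of `N` differences of elements of `A_b`, or
`A_b ∩ R_b` has measure more than `1 / (k + 1)` for some invariant mean of `R_b`. Then the pole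
relation of `K` itself is existentially definable in `K`. -/
theorem result (K L : Type) [Field K] [NumberField K] [Field L] [NumberField L] [Algebra K L]
    (Q : Set ℕ) (E : Set K) (hE : E.Finite) (k m N n : ℕ) (hm : 0 < m)
    (g : MvPolynomial (Fin 2 ⊕ Fin n) L)
    (sound : ∀ b ∉ E, ∃ c : Fin k → L, ∀ x ∈ Fib g (algebraMap K L b),
      ∃ i, PoleRel L Q (m * (x - c i)) (algebraMap K L b))
    (large : (∀ b ∉ E, ∀ c : Fin (k + 1) → L, (∀ i, PoleRel L Q (c i) (algebraMap K L b)) →
        ∃ i j, i ≠ j ∧ c i - c j ∈ DiffSum (Fib g (algebraMap K L b)) N) ∨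
      (∀ b ∉ E, ∃ μ, IsMean {x : L | PoleRel L Q x (algebraMap K L b)} μ ∧
        1 < (k + 1) * μ (Fib g (algebraMap K L b) ∩
          {x : L | PoleRel L Q x (algebraMap K L b)}))) :
    ExDef (PoleRel K Q) := by
  rcases large with h | h
  · exact Pool.Agent.Q212.PR.main Q hE hm g sound h
  · refine Pool.Agent.Q212.PR.main_density Q hE hm g sound fun b hb => ?_
    obtain ⟨μ, hμ, h1⟩ := h b hb
    exact ⟨μ, ⟨hμ.nonneg, hμ.add, hμ.total, hμ.inv⟩, h1⟩

end Pool.Agent.Results.MP_a59382_lc.Robustness
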